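import Pool.Agent.W2helper61.PF.Stm

/-!
# Project PF, piece CEL: facts on the cells

The third part of `P_CEL` fails for `i = 0`, `x = w = 1`; it holds for `x ≥ 2`.
-/

set_option autoImplicit false

namespace Pool.Agent.W2helper54.PF

open Pool.Agent.NPC Pool.Agent.H622R2 Pool.Agent.H620R2.Gauge Pool.Agent.W2helper61.RF
open Pool.Agent.W2helper61.PF

theorem foldl_ge (y : List Bool) :
    ∀ m : ℕ, m * 2 ^ y.length ≤ y.foldl (fun n b => 2 * n + b.toNat) m := by
  induction y with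
  | nil => intro m; simp
  | cons b y ih =>
    intro m
    rw [List.foldl_cons, List.length_cons]
    refine le_trans ?_ (ih _)
    rw [pow_succ]
    nlinarith [Nat.zero_le (b.toNat * 2 ^ y.length)]

theorem dig (b r : ℕ) (h : r + 1 < 2 ^ b) :
    ∃ y : List Bool, str (2 ^ (b + 2) + r) = false :: false :: y ∧ y.length = b := by
  obtain ⟨y, hy, hs⟩ := exists_str (2 ^ (b + 2) + r)
  have hb := sval_bounds y
  have e : 2 ^ (b + 2) = 4 * 2 ^ b := by rw [pow_add]; ring
  have hl : y.length = b + 2 := by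
    rw [hy] at hb
    have h1 : 2 ^ y.length < 2 ^ (b + 2 + 1) := by rw [pow_succ 2 (b + 2)]; omega
    have h2 : 2 ^ (b + 2) < 2 ^ (y.length + 1) := by omega
    have h1' := (Nat.pow_lt_pow_iff_right (by norm_num)).1 h1
    have h2' := (Nat.pow_lt_pow_iff_right (by norm_num)).1 h2
    omega
  rw [hs]
  obtain ⟨c, d, y', rfl⟩ : ∃ c d y', y = c :: d :: y' := by
    rcases y with _ | ⟨c, _ | ⟨d, y'⟩⟩
    · simp at hl
    · simp at hl
    · exact ⟨c, d, y', rfl⟩
  have hl' : y'.length = b := by simpa using hl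
  have hg := foldl_ge y' (2 * (2 * 1 + c.toNat) + d.toNat)
  have hv : sval (c :: d :: y') =
    y'.foldl (fun n b => 2 * n + b.toNat) (2 * (2 * 1 + c.toNat) + d.toNat) := rfl
  rw [← hv, hy, hl', e] at hg
  cases c <;> cases d
  · exact ⟨y', rfl, hl'⟩
  all_goals
    exfalso
    simp only [Bool.toNat_true, Bool.toNat_false] at hg
    omega

/-- the remainder of a cell -/
theorem rem_lt (x w : ℕ) (hw : w ≤ x) : x * 2 ^ x.size + w + 1 ≤ 2 ^ (2 * x.size) := by
  have h1 := Nat.lt_size_self x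
  rw [two_mul, pow_add]
  nlinarith

theorem le_rem (x w : ℕ) (hx : 1 ≤ x) : 2 ^ (2 * x.size - 1) ≤ x * 2 ^ x.size + w := by
  have h1 : 0 < x.size := Nat.size_pos.2 hx
  have h2 : 2 ^ (x.size - 1) ≤ x := by
    rw [← Nat.lt_size]
    omega
  rw [show 2 * x.size - 1 = (x.size - 1) + x.size by omega, pow_add]
  exact (Nat.mul_le_mul_right _ h2).trans (Nat.le_add_right _ _)

theorem val_cell (O : Oracle) (i x w : ℕ) :
    (cellT i).val (nat O) (cons w (env [x])) = cellN i x w := by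
  show 2 ^ (x.size * ((num (2 ^ (i + 3))).val (nat O) (cons w (env [x]))).size) +
    (x * 2 ^ ((0 + 1 : ℕ).size * x.size) + w) = _
  rw [val_num, Nat.size_pow, show (0 + 1 : ℕ).size = 1 from Nat.size_one, one_mul]
  rfl

theorem cel_sb (i : ℕ) : SB true (bet i) ∧ (bet i).Below 1 := by
  refine ⟨SB.imp true _ _ (SB.ball (.var 0) _ (SB.imp false _ _ (SB.orc _ _) (SB.bot _)))
    (SB.bot _), ?_⟩
  refine ⟨⟨⟨?_, ?_⟩, ⟨⟨?_, ?_⟩, ⟨?_, ⟨?_, ?_⟩⟩, ?_⟩, ?_⟩, ?_⟩
  · show 0 < 2; omega
  · show 0 + 1 < 2; omega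
  · show 1 < 2; omega
  · exact below_num _ _
  · show 1 < 2; omega
  · trivial
  · show 1 < 2; omega
  · show 0 < 2; omega
  · trivial
  · trivial

theorem cel_sem (O : Oracle) (i x : ℕ) : (bet i).sat (nat O) (env [x]) ↔
    ∃ w ≤ x, O (str (cellN i x w)) = true := by
  have h1 : (bet i).sat (nat O) (env [x]) ↔
      ((∀ w : ℕ, w ≤ x → O (str ((cellT i).val (nat O) (cons w (env [x])))) = true → False) →
        False) := Iff.rfl
  rw [h1]
  constructor
  · intro h
    by_contra hc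
    refine h fun w hw hO => hc ⟨w, hw, ?_⟩
    rwa [val_cell] at hO
  · rintro ⟨w, hw, hO⟩ h
    refine h w hw ?_
    rwa [val_cell]

theorem cel_str (i x w : ℕ) (hx : 2 ≤ x) (hw : w ≤ x) :
    ∃ y : List Bool, str (cellN i x w) = false :: false :: y ∧
      y.length + 2 = x.size * (i + 4) := by
  have h1 : 2 ≤ x.size := Nat.lt_size.2 (by rw [pow_one]; exact hx)
  have h2 : x.size * 4 ≤ x.size * (i + 4) := Nat.mul_le_mul_left _ (by omega)
  have h3 : 2 ^ (2 * x.size) < 2 ^ (x.size * (i + 4) - 2) :=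
    Nat.pow_lt_pow_right (by norm_num) (by omega)
  obtain ⟨y, hy, hl⟩ := dig (x.size * (i + 4) - 2) (x * 2 ^ x.size + w)
    ((rem_lt x w hw).trans_lt h3)
  rw [show x.size * (i + 4) - 2 + 2 = x.size * (i + 4) by omega] at hy
  exact ⟨y, hy, by omega⟩

theorem cel_inj (i x w i' x' w' : ℕ) (hx : 1 ≤ x) (hx' : 1 ≤ x') (hw : w ≤ x) (hw' : w' ≤ x')
    (h : str (cellN i x w) = str (cellN i' x' w')) : i = i' ∧ x = x' ∧ w = w' := by
  have h0 : cellN i x w = cellN i' x' w' := str_injective h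
  unfold cellN at h0
  have h1 := rem_lt x w hw
  have h1' := rem_lt x' w' hw'
  have h2 := le_rem x w hx
  have h2' := le_rem x' w' hx'
  have s1 : 0 < x.size := Nat.size_pos.2 hx
  have s1' : 0 < x'.size := Nat.size_pos.2 hx'
  have a1 : 2 ^ (2 * x.size) ≤ 2 ^ (x.size * (i + 4)) :=
    Nat.pow_le_pow_right (by norm_num) (by nlinarith)
  have a1' : 2 ^ (2 * x'.size) ≤ 2 ^ (x'.size * (i' + 4)) :=
    Nat.pow_le_pow_right (by norm_num) (by nlinarith)
  have ha : x.size * (i + 4) = x'.size * (i' + 4) := by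
    rcases lt_trichotomy (x.size * (i + 4)) (x'.size * (i' + 4)) with hlt | heq | hlt
    · have : 2 ^ (x.size * (i + 4) + 1) ≤ 2 ^ (x'.size * (i' + 4)) :=
        Nat.pow_le_pow_right (by norm_num) (by omega)
      rw [pow_succ] at this
      omega
    · exact heq
    · have : 2 ^ (x'.size * (i' + 4) + 1) ≤ 2 ^ (x.size * (i + 4)) :=
        Nat.pow_le_pow_right (by norm_num) (by omega)
      rw [pow_succ] at this
      omega
  have hr : x * 2 ^ x.size + w = x' * 2 ^ x'.size + w' := by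
    rw [ha] at h0
    omega
  have hs : x.size = x'.size := by
    rcases lt_trichotomy x.size x'.size with hlt | heq | hlt
    · have : 2 ^ (2 * x.size) ≤ 2 ^ (2 * x'.size - 1) :=
        Nat.pow_le_pow_right (by norm_num) (by omega)
      omega
    · exact heq
    · have : 2 ^ (2 * x'.size) ≤ 2 ^ (2 * x.size - 1) :=
        Nat.pow_le_pow_right (by norm_num) (by omega)
      omega
  have hi : i = i' := by
    rw [hs] at ha
    have := Nat.eq_of_mul_eq_mul_left s1' ha
    omega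
  have hx2 := Nat.lt_size_self x
  have hx2' := Nat.lt_size_self x'
  rw [hs] at hr hx2
  have hpos : 0 < 2 ^ x'.size := Nat.pow_pos (by norm_num)
  have hxx : x = x' := by
    have e1 : (x * 2 ^ x'.size + w) / 2 ^ x'.size = x := by
      rw [mul_comm, Nat.mul_add_div hpos, Nat.div_eq_of_lt (by omega), add_zero]
    have e2 : (x' * 2 ^ x'.size + w') / 2 ^ x'.size = x' := by
      rw [mul_comm, Nat.mul_add_div hpos, Nat.div_eq_of_lt (by omega), add_zero]
    rw [← e1, hr, e2]
  subst hxx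
  exact ⟨hi, rfl, by omega⟩

/-- `P_CEL` with `2 ≤ x` in the third part. -/
def P_CEL2 : Prop :=
  (∀ i, SB true (bet i) ∧ (bet i).Below 1) ∧
  (∀ (O : Oracle) (i x : ℕ), (bet i).sat (nat O) (env [x]) ↔
    ∃ w ≤ x, O (str (cellN i x w)) = true) ∧
  (∀ i x w : ℕ, 2 ≤ x → w ≤ x → ∃ y : List Bool, str (cellN i x w) = false :: false :: y ∧
    y.length + 2 = x.size * (i + 4)) ∧
  ∀ i x w i' x' w' : ℕ, 1 ≤ x → 1 ≤ x' → w ≤ x → w' ≤ x' →
    str (cellN i x w) = str (cellN i' x' w') → i = i' ∧ x = x' ∧ w = w'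

theorem CEL2_ok : P_CEL2 := ⟨cel_sb, cel_sem, cel_str, cel_inj⟩

/-- `P_CEL` is false. -/
theorem not_P_CEL : ¬ P_CEL := by
  intro h
  obtain ⟨y, hy, -⟩ := h.2.2.1 0 1 1 le_rfl le_rfl
  have h2 : str (cellN 0 1 1) = [false, true, false, false] := by
    have e : sval [false, true, false, false] = 20 := rfl
    have := str_idx [false, true, false, false]
    rw [idx_eq, e] at this
    have c : cellN 0 1 1 = 19 := by
      unfold cellN
      rw [show (1 : ℕ).size = 1 from Nat.size_one]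
      norm_num
    rw [c]
    exact this
  rw [h2] at hy
  simp at hy

end Pool.Agent.W2helper54.PF
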